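import Pool.Agent.L7h97.PX.Unq

/-!
# Project PX: relations between the logarithms at the embeddings inducing a place (S_RAT)
-/

set_option autoImplicit false

namespace Pool.Agent.L7h97.PX

open NumberField Pool.Agent.W289.SL Pool.Agent.L7h1.PX Module
open Pool.Agent.W332.SL6 (NearU nearU_unit log_unique)

variable {p : ℕ} [Fact p.Prime]

/-- the absolute value of an embedding -/
noncomputable def absv (A : IntermediateField ℚ_[p] ℂ_[p]) (s : A →ₐ[ℚ_[p]] ℂ_[p]) :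
    AbsoluteValue A ℝ where
  toFun x := ‖s x‖
  map_mul' x y := by simp
  nonneg' x := norm_nonneg _
  eq_zero' x := by simp
  add_le' x y := by
    rw [map_add]
    exact norm_add_le _ _

theorem norm_emb (A : IntermediateField ℚ_[p] ℂ_[p]) [FiniteDimensional ℚ_[p] A]
    (s : A →ₐ[ℚ_[p]] ℂ_[p]) (x : A) : ‖s x‖ = ‖(x : ℂ_[p])‖ := by
  have h1 := spectralNorm_unique_field_norm_ext (K := ℚ_[p]) (L := A) (f := absv A s) (by
    intro x
    show ‖s (algebraMap ℚ_[p] A x)‖ = ‖x‖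
    rw [AlgHom.commutes]
    exact norm_algebraMap' _ _) x
  have h2 := spectralNorm_unique_field_norm_ext (K := ℚ_[p]) (L := A) (f := absv A A.val) (by
    intro x
    show ‖A.val (algebraMap ℚ_[p] A x)‖ = ‖x‖
    rw [AlgHom.commutes]
    exact norm_algebraMap' _ _) x
  exact h1.trans h2.symm

theorem closed_A (A : IntermediateField ℚ_[p] ℂ_[p]) [FiniteDimensional ℚ_[p] A] :
    IsClosed (A : Set ℂ_[p]) := by
  have : FiniteDimensional ℚ_[p] (Subalgebra.toSubmodule A.toSubalgebra) :=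
    inferInstanceAs (FiniteDimensional ℚ_[p] A)
  exact Submodule.closed_of_finiteDimensional (Subalgebra.toSubmodule A.toSubalgebra)

/-- the terms of the logarithmic series -/
theorem log_mem_A (A : IntermediateField ℚ_[p] ℂ_[p]) [FiniteDimensional ℚ_[p] A]
    {L : ℂ_[p] → ℂ_[p]} (hL : IsIwasawaLog p L) (z : ℂ_[p]) (hz : z ∈ A) (hz1 : ‖z‖ < 1) :
    L (1 + z) ∈ A := by
  refine (closed_A A).mem_of_tendsto (hL.ser z hz1) (Filter.Eventually.of_forall fun t => ?_)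
  refine A.sum_mem fun n _ => ?_
  refine A.div_mem (A.mul_mem (pow_mem (A.neg_mem A.one_mem) _) (pow_mem hz _)) ?_
  exact A.add_mem (natCast_mem A n) A.one_mem

theorem log_emb (A : IntermediateField ℚ_[p] ℂ_[p]) [FiniteDimensional ℚ_[p] A]
    {L : ℂ_[p] → ℂ_[p]} (hL : IsIwasawaLog p L) (s : A →ₐ[ℚ_[p]] ℂ_[p]) (z : A)
    (hz1 : ‖(z : ℂ_[p])‖ < 1) :
    L (1 + s z) = s ⟨L (1 + z), log_mem_A A hL z z.2 hz1⟩ := by
  have h0 : ‖s z‖ < 1 := by rw [norm_emb]; exact hz1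
  have h1 := hL.ser (s z) h0
  have h2 := hL.ser (z : ℂ_[p]) hz1
  refine h1.unique ?_
  unfold HasSum at h2 ⊢
  rw [tendsto_iff_norm_sub_tendsto_zero] at h2 ⊢
  refine h2.congr fun t => ?_
  have h3 : ∑ n ∈ t, (-1 : ℂ_[p]) ^ n * (s z) ^ (n + 1) / ((n : ℂ_[p]) + 1) -
      s ⟨L (1 + z), log_mem_A A hL z z.2 hz1⟩ =
      s (∑ n ∈ t, (-1 : A) ^ n * z ^ (n + 1) / ((n : A) + 1) -
        ⟨L (1 + z), log_mem_A A hL z z.2 hz1⟩) := by
    rw [map_sub, map_sum]
    congr 1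
    refine Finset.sum_congr rfl fun n _ => ?_
    rw [map_div₀, map_mul, map_pow, map_pow, map_neg, map_one, map_add, map_natCast, map_one]
  rw [h3, norm_emb]
  congr 1
  push_cast
  rfl

/-- the logarithm commutes with the embeddings, for units -/
theorem log_unit_emb {H : Type} [Field H] [NumberField H] (A : IntermediateField ℚ_[p] ℂ_[p])
    [FiniteDimensional ℚ_[p] A] {L : ℂ_[p] → ℂ_[p]} (hL : IsIwasawaLog p L) (σ : H →+* A)
    (u : (𝓞 H)ˣ) : ∃ h : L ((σ ((u : 𝓞 H) : H) : A) : ℂ_[p]) ∈ A, ∀ s : A →ₐ[ℚ_[p]] ℂ_[p],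
      L (s (σ ((u : 𝓞 H) : H))) = s ⟨L ((σ ((u : 𝓞 H) : H) : A) : ℂ_[p]), h⟩ := by
  set y : A := σ ((u : 𝓞 H) : H) with hy
  have hnear := nearU_unit ((A.val : A →+* ℂ_[p]).comp σ) u
  have hy0 : (y : ℂ_[p]) ≠ 0 := hnear.ne
  obtain ⟨N, hN, hN2⟩ := hnear.near 1 one_pos
  have hN0 : (N : ℂ_[p]) ≠ 0 := by
    have : N ≠ 0 := by omega
    exact_mod_cast this
  set z : A := y ^ N - 1 with hz
  have hzn : ‖(z : ℂ_[p])‖ < 1 := hN2
  have h1z : (1 : ℂ_[p]) + z = (y : ℂ_[p]) ^ N := by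
    rw [hz]
    push_cast
    ring
  have hmem := log_mem_A A hL z z.2 hzn
  have hLN : L (1 + z) = (N : ℂ_[p]) * L y := by rw [h1z, hL.pow hy0]
  have hmem2 : L (y : ℂ_[p]) ∈ A := by
    have h2 : L (y : ℂ_[p]) = (N : ℂ_[p])⁻¹ * L (1 + z) := by
      rw [hLN, inv_mul_cancel_left₀ hN0]
    rw [h2]
    exact A.mul_mem (A.inv_mem (natCast_mem A N)) hmem
  refine ⟨hmem2, fun s => ?_⟩
  have h3 := log_emb A hL s z hzn
  have hsy0 : s y ≠ 0 := by
    rw [Ne, map_eq_zero]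
    intro h
    apply hy0
    rw [h]
    rfl
  have h4 : 1 + s z = (s y) ^ N := by
    rw [hz, map_sub, map_pow, map_one]
    ring
  rw [h4, hL.pow hsy0] at h3
  have h5 : (⟨L (1 + z), hmem⟩ : A) = (N : A) * ⟨L y, hmem2⟩ := by
    apply Subtype.ext
    show L (1 + z) = _
    rw [hLN]
    push_cast
    rfl
  rw [h5, map_mul, map_natCast] at h3
  exact mul_left_cancel₀ hN0 h3

theorem s_RAT : S_RAT := by
  classical
  intro p _ H _ _ L hL r u c σ hyp φ
  -- the field generated by the image of `σ`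
  let b := Module.finBasis ℚ H
  let S : Set ℂ_[p] := Set.range fun i => σ (b i)
  let A : IntermediateField ℚ_[p] ℂ_[p] := IntermediateField.adjoin ℚ_[p] S
  have hint : ∀ x : H, IsIntegral ℚ_[p] (σ x) := by
    intro x
    have h1 : IsAlgebraic ℚ (σ x) :=
      (Algebra.IsAlgebraic.isAlgebraic (R := ℚ) x).algHom (RingHom.toRatAlgHom σ)
    exact (h1.tower_top ℚ_[p]).isIntegral
  have : FiniteDimensional ℚ_[p] A := by
    refine IntermediateField.finiteDimensional_adjoin ?_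
    rintro x ⟨i, rfl⟩
    exact hint _
  have hmem : ∀ x : H, σ x ∈ A := by
    intro x
    rw [← b.sum_repr x, map_sum]
    refine A.sum_mem fun i _ => ?_
    rw [Rat.smul_def, map_mul, map_ratCast]
    refine A.mul_mem ?_ (IntermediateField.subset_adjoin _ _ ⟨i, rfl⟩)
    have h1 := A.algebraMap_mem ((b.repr x i : ℚ) : ℚ_[p])
    rwa [map_ratCast] at h1
  let σA : H →+* A := σ.codRestrict A hmem
  have hσA : ∀ x, ((σA x : A) : ℂ_[p]) = σ x := fun x => rfl
  choose hl hs using fun i => log_unit_emb A hL σA (u i)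
  set ℓ : Fin r → A := fun i => ⟨L ((σA ((u i : 𝓞 H) : H) : A) : ℂ_[p]), hl i⟩ with hℓ
  have h0 : ∀ s : A →ₐ[ℚ_[p]] ℂ_[p], ∑ i, c i * s (ℓ i) = 0 := by
    intro s
    have h1 := hyp ((s : A →+* ℂ_[p]).comp σA) (fun y => norm_emb A s (σA y))
    rw [← h1]
    refine Finset.sum_congr rfl fun i _ => ?_
    rw [← hs i s]
    rfl
  have h2 : ∀ e : A, ∑ i, Algebra.trace ℚ_[p] A (e * ℓ i) * φ (c i) = 0 := by
    intro e
    have h3 : ∑ i, Algebra.trace ℚ_[p] A (e * ℓ i) • c i = 0 := by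
      have h4 : ∀ i, Algebra.trace ℚ_[p] A (e * ℓ i) • c i =
          ∑ s : A →ₐ[ℚ_[p]] ℂ_[p], s e * (c i * s (ℓ i)) := by
        intro i
        rw [Algebra.smul_def, trace_eq_sum_embeddings ℂ_[p], Finset.sum_mul]
        refine Finset.sum_congr rfl fun s _ => ?_
        rw [map_mul]
        ring
      rw [Finset.sum_congr rfl fun i _ => h4 i, Finset.sum_comm]
      refine Finset.sum_eq_zero fun s _ => ?_
      rw [← Finset.mul_sum, h0 s, mul_zero]
    have h5 := congrArg φ h3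
    rw [map_sum, map_zero] at h5
    simpa [map_smul] using h5
  have h6 : ∑ i, φ (c i) • ℓ i = 0 := by
    have hnd := traceForm_nondegenerate ℚ_[p] A
    refine hnd.1 _ fun e => ?_
    rw [Algebra.traceForm_apply, ← h2 e, Finset.sum_mul, map_sum]
    refine Finset.sum_congr rfl fun i _ => ?_
    rw [smul_mul_assoc, map_smul, smul_eq_mul, mul_comm (ℓ i) e, mul_comm]
  have h7 := congrArg (fun x : A => (x : ℂ_[p])) h6
  simp only [IntermediateField.coe_sum, IntermediateField.coe_zero, IntermediateField.coe_smul] at h7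
  rw [← h7]
  refine Finset.sum_congr rfl fun i _ => ?_
  rw [Algebra.smul_def]
  rfl

end Pool.Agent.L7h97.PX
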