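import Pool.Agent.L7h1.PX.Stm3
import Pool.Agent.L7h1.PX.Lat
import Pool.Agent.L7h28.PX.Bnd2
import Pool.Agent.L7h97.PX.Rat

/-!
# Project PX: many units from the levels of the kernel (S_UNI)
-/

set_option autoImplicit false

namespace Pool.Agent.L7h97.PX

open NumberField TensorProduct Pool.Agent.W289.SL Module Polynomial Pool.Agent.L7h1.PX
open Pool.Agent.L7h28.PX (cz cz_spec cf cf_tmul czf czf_unique decomp aeval_tmul power_of_dvd log_tmul
  coe_unitHom unit_ext uE_pow_eq uE_apply uE_pow)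

section coord

variable {B : Type} [Field B] [NumberField B]

/-- the fundamental units -/
noncomputable def fz (B : Type) [Field B] [NumberField B] (i : Fin (Units.rank B)) :
    Additive (𝓞 B)ˣ := Additive.ofMul (Units.fundSystem B i)

theorem cz_tors {x : Additive (𝓞 B)ˣ} {n : ℤ} (hn : n ≠ 0) (h : n • x = 0) (i : Fin (Units.rank B)) :
    cz B i x = 0 := by
  have h1 := congrArg (cz B i) h
  rw [map_zsmul, map_zero, smul_eq_mul] at h1
  exact (mul_eq_zero.1 h1).resolve_left hn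

theorem cz_fz (i j : Fin (Units.rank B)) : cz B i (fz B j) = if i = j then 1 else 0 := by
  have h1 : czf B (Units.fundSystem B j) = (1, fun i => if i = j then 1 else 0) := by
    apply czf_unique
    simp only [OneMemClass.coe_one, one_mul]
    rw [Finset.prod_eq_single j]
    · rw [if_pos rfl, zpow_one]
    · intro b _ hb
      rw [if_neg hb, zpow_zero]
    · intro h
      exact absurd (Finset.mem_univ _) h
  show (czf B (Units.fundSystem B j)).2 i = _
  rw [h1]

/-- a unit with given coordinates -/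
noncomputable def uz (y : Fin (Units.rank B) → ℤ) : Additive (𝓞 B)ˣ := ∑ i, y i • fz B i

theorem cz_uz (y : Fin (Units.rank B) → ℤ) (i : Fin (Units.rank B)) : cz B i (uz y) = y i := by
  unfold uz
  rw [map_sum]
  simp only [map_zsmul, cz_fz, smul_eq_mul]
  rw [Finset.sum_eq_single i]
  · rw [if_pos rfl, mul_one]
  · intro b _ hb
    rw [if_neg hb.symm, mul_zero]
  · intro h
    exact absurd (Finset.mem_univ _) h

theorem dec_z (u : Additive (𝓞 B)ˣ) : ∃ ζ : Additive (𝓞 B)ˣ, (∃ n : ℤ, n ≠ 0 ∧ n • ζ = 0) ∧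
    u = ζ + ∑ i, cz B i u • fz B i := by
  obtain ⟨ζ, hζ, h⟩ := cz_spec B u.toMul
  refine ⟨Additive.ofMul ζ, ?_, ?_⟩
  · rw [Units.torsion, CommGroup.mem_torsion, isOfFinOrder_iff_pow_eq_one] at hζ
    obtain ⟨N, hN, h⟩ := hζ
    refine ⟨N, by exact_mod_cast hN.ne', ?_⟩
    rw [natCast_zsmul, ← ofMul_pow, h, ofMul_one]
  · have h2 : u = Additive.ofMul u.toMul := rfl
    conv_lhs => rw [h2, h]
    rw [ofMul_mul, ofMul_prod]
    rfl

/-- the matrix of an endomorphism -/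
noncomputable def mat (E : Module.End ℤ (Additive (𝓞 B)ˣ)) :
    Matrix (Fin (Units.rank B)) (Fin (Units.rank B)) ℤ := fun i j => cz B i (E (fz B j))

theorem cz_end (E : Module.End ℤ (Additive (𝓞 B)ˣ)) (u : Additive (𝓞 B)ˣ) (i : Fin (Units.rank B)) :
    cz B i (E u) = ∑ j, mat E i j * cz B j u := by
  obtain ⟨ζ, ⟨n, hn, hζ⟩, h⟩ := dec_z u
  have h1 : cz B i (E ζ) = 0 := cz_tors hn (by rw [← map_zsmul, hζ, map_zero]) i
  conv_lhs => rw [h]
  rw [map_add, map_add, h1, zero_add, map_sum, map_sum]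
  refine Finset.sum_congr rfl fun j _ => ?_
  rw [map_zsmul, map_zsmul, smul_eq_mul, mul_comm]
  rfl

/-- the matrix as a ring homomorphism -/
noncomputable def matR (B : Type) [Field B] [NumberField B] :
    Module.End ℤ (Additive (𝓞 B)ˣ) →+* Matrix (Fin (Units.rank B)) (Fin (Units.rank B)) ℤ where
  toFun := mat
  map_one' := by
    ext i j
    unfold mat
    rw [Module.End.one_apply, cz_fz, Matrix.one_apply]
  map_mul' E F := by
    ext i j
    show cz B i ((E * F) (fz B j)) = _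
    rw [Module.End.mul_apply, cz_end, Matrix.mul_apply]
    rfl
  map_zero' := by
    ext i j
    show cz B i ((0 : Module.End ℤ (Additive (𝓞 B)ˣ)) (fz B j)) = 0
    rw [LinearMap.zero_apply, map_zero]
  map_add' E F := by
    ext i j
    show cz B i ((E + F) (fz B j)) = _
    rw [LinearMap.add_apply, map_add]
    rfl

theorem matR_apply (E : Module.End ℤ (Additive (𝓞 B)ˣ)) : matR B E = mat E := rfl

theorem mat_aeval (E : Module.End ℤ (Additive (𝓞 B)ˣ)) (P : ℤ[X]) :
    mat (aeval E P) = aeval (mat E) P := by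
  have h := Polynomial.map_aeval_eq_aeval_map (φ := RingHom.id ℤ) (ψ := matR B)
    (RingHom.ext_int _ _) P E
  rw [Polynomial.map_id] at h
  exact h

variable {p : ℕ} [Fact p.Prime]

theorem cf_end (f : B →+* B) (P : ℤ[X]) (x : UM p B) (i : Fin (Units.rank B)) :
    cf i (aeval (actLin p f) P x) = ∑ j, ((mat (aeval (uE f) P) i j : ℤ) : ℂ_[p]) * cf j x := by
  induction x using TensorProduct.induction_on with
  | zero => simp
  | add x y hx hy =>
    rw [map_add, map_add, hx, hy, ← Finset.sum_add_distrib]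
    refine Finset.sum_congr rfl fun j _ => ?_
    rw [map_add]
    ring
  | tmul a u =>
    have e : (a ⊗ₜ[ℤ] u : UM p B) = a • ((1 : ℂ_[p]) ⊗ₜ[ℤ] u : UM p B) := by
      rw [TensorProduct.smul_tmul', smul_eq_mul, mul_one]
    have e2 : aeval (actLin p f) P (a • ((1 : ℂ_[p]) ⊗ₜ[ℤ] u : UM p B)) =
        a • aeval (actLin p f) P ((1 : ℂ_[p]) ⊗ₜ[ℤ] u : UM p B) :=
      LinearMap.map_smul _ _ _
    rw [e, e2, map_smul, aeval_tmul, cf_tmul, one_mul, cz_end, smul_eq_mul, Int.cast_sum,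
      Finset.mul_sum]
    refine Finset.sum_congr rfl fun j _ => ?_
    rw [map_smul, cf_tmul, one_mul, smul_eq_mul]
    push_cast
    ring

theorem log_dec {L : ℂ_[p] → ℂ_[p]} (hL : IsIwasawaLog p L) (σ : B →+* ℂ_[p]) (u : (𝓞 B)ˣ) :
    L (σ ((u : 𝓞 B) : B)) = ∑ j, ((cz B j (Additive.ofMul u) : ℤ) : ℂ_[p]) *
      L (σ ((Units.fundSystem B j : 𝓞 B) : B)) := by
  have h := congrArg (logLin hL σ) (decomp ((1 : ℂ_[p]) ⊗ₜ[ℤ] Additive.ofMul u : UM p B))
  rw [log_tmul, map_sum] at h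
  rw [h]
  refine Finset.sum_congr rfl fun j _ => ?_
  rw [map_smul, smul_eq_mul, cf_tmul, one_mul, log_tmul]

theorem log_vec {L : ℂ_[p] → ℂ_[p]} (hL : IsIwasawaLog p L) (σ : B →+* ℂ_[p]) (x : UM p B) :
    logLin hL σ x = ∑ j, cf j x * L (σ ((Units.fundSystem B j : 𝓞 B) : B)) := by
  conv_lhs => rw [decomp x, map_sum]
  refine Finset.sum_congr rfl fun j _ => ?_
  rw [map_smul, smul_eq_mul, log_tmul]

end coord

/-- scaling into the integers -/
theorem scale {p : ℕ} [Fact p.Prime] {r : ℕ} (v : Fin r → ℚ_[p]) : ∃ N : ℕ, ∃ x : Fin r → ℤ_[p],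
    ∀ i, ((x i : ℤ_[p]) : ℚ_[p]) = (p : ℚ_[p]) ^ N * v i := by
  have hp : p.Prime := Fact.out
  have hp1 : (1 : ℝ) < p := by exact_mod_cast hp.one_lt
  obtain ⟨N, hN⟩ := pow_unbounded_of_one_lt (∑ i, ‖v i‖) hp1
  have h1 : ∀ i, ‖(p : ℚ_[p]) ^ N * v i‖ ≤ 1 := by
    intro i
    rw [norm_mul, norm_pow, Padic.norm_p, inv_pow]
    have h2 : ‖v i‖ ≤ ∑ i, ‖v i‖ :=
      Finset.single_le_sum (f := fun i => ‖v i‖) (fun i _ => norm_nonneg _) (Finset.mem_univ i)
    have h3 : (0 : ℝ) < (p : ℝ) ^ N := by positivity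
    rw [inv_mul_le_iff₀ h3, mul_one]
    linarith
  exact ⟨N, fun i => ⟨_, h1 i⟩, fun i => rfl⟩

theorem s_UNI_of (hLAT : S_LAT) (hRAT : S_RAT) : S_UNI := by
  intro p _ H _ _ hroot L hL T γ δ n t hγ hcomm hT1 hT2 J hJ
  classical
  set r := Units.rank H with hr
  set Eγ : Module.End ℤ (Additive (𝓞 H)ˣ) := uE (γ : H →+* H) with hEγ
  set Eδ : Module.End ℤ (Additive (𝓞 H)ˣ) := aeval (uE (δ : H →+* H)) (cyclotomic t ℤ) with hEδ
  set A := mat Eγ with hA
  set D := mat Eδ with hD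
  have hApow : A ^ p ^ n = 1 := by
    rw [hA, ← matR_apply, ← map_pow, hEγ, uE_pow_eq _ _ hγ, map_one]
  have hcE : Commute (uE (δ : H →+* H)) Eγ := by
    show uE (δ : H →+* H) * Eγ = Eγ * uE (δ : H →+* H)
    refine LinearMap.ext fun m => ?_
    rw [Module.End.mul_apply, Module.End.mul_apply]
    have h1 : ((uE (δ : H →+* H) (Eγ m)).toMul : (𝓞 H)ˣ) = (Eγ (uE (δ : H →+* H) m)).toMul := by
      apply unit_ext
      rw [hEγ, uE_apply, uE_apply, uE_apply, uE_apply, coe_unitHom, coe_unitHom, coe_unitHom,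
        coe_unitHom]
      exact (hcomm _).symm
    exact h1
  have hcP : ∀ P : ℤ[X], Commute (aeval (uE (δ : H →+* H)) P) Eγ := by
    intro P
    induction P using Polynomial.induction_on with
    | C a =>
      rw [aeval_C]
      exact Algebra.commutes _ _
    | add P Q hP hQ =>
      rw [map_add]
      exact hP.add_left hQ
    | monomial n a h =>
      rw [map_mul, map_pow, aeval_X, aeval_C]
      have hc : Commute ((algebraMap ℤ (Module.End ℤ (Additive (𝓞 H)ˣ))) a) Eγ := Algebra.commutes _ _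
      exact hc.mul_left (hcE.pow_left _)
  have hAD : A * D = D * A := by
    rw [hA, hD, ← matR_apply, ← matR_apply, ← map_mul, ← map_mul]
    congr 1
    exact (hcP _).symm.eq
  -- the logarithms
  set l : T → Fin r → ℂ_[p] := fun σ i => L ((σ : H →+* ℂ_[p]) ((Units.fundSystem H i : 𝓞 H) : H)) with hl
  have hl1 : ∀ σ : T, ∃ σ' : T, ∀ i, ∑ j, (A j i : ℂ_[p]) * l σ j = l σ' i := by
    intro σ
    refine ⟨⟨(σ : H →+* ℂ_[p]).comp (γ : H →+* H), hT2 σ σ.2⟩, fun i => ?_⟩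
    have h1 := log_dec hL (σ : H →+* ℂ_[p]) (Eγ (fz H i)).toMul
    have h2 : ((((Eγ (fz H i)).toMul : (𝓞 H)ˣ) : 𝓞 H) : H) =
        γ ((Units.fundSystem H i : 𝓞 H) : H) := by
      rw [hEγ, uE_apply, coe_unitHom]
      rfl
    rw [h2] at h1
    exact h1.symm
  have hfin : Finite T := inferInstance
  obtain ⟨Y, hY1, hY2, hY3⟩ := hLAT p r n A D 0 T l J 0 hApow hAD hl1 (by
    intro j hj
    obtain ⟨hj1, x, hx0, hxL, hxγ, hxδ⟩ := hJ j hj
    refine ⟨hj1, ?_⟩
    -- a nonzero coordinate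
    obtain ⟨i0, hi0⟩ : ∃ i0, cf i0 x ≠ 0 := by
      by_contra hcon
      push Not at hcon
      apply hx0
      rw [decomp x]
      exact Finset.sum_eq_zero fun i _ => by rw [hcon i]; exact zero_smul ℂ_[p] _
    obtain ⟨φ, hφ⟩ : ∃ φ : ℂ_[p] →ₗ[ℚ_[p]] ℚ_[p], φ (cf i0 x) ≠ 0 := by
      by_contra hcon
      push Not at hcon
      exact hi0 ((Module.forall_dual_apply_eq_zero_iff ℚ_[p] _).1 hcon)
    obtain ⟨N, y, hy⟩ := scale (fun i => φ (cf i x))
    have hp0 : (p : ℚ_[p]) ≠ 0 := by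
      have : p ≠ 0 := (Fact.out : p.Prime).ne_zero
      exact_mod_cast this
    have key : ∀ M : Matrix (Fin r) (Fin r) ℤ, (∀ i, ∑ j, ((M i j : ℤ) : ℂ_[p]) * cf j x = 0) →
        (M.map (Int.cast : ℤ → ℤ_[p])).mulVec y = 0 := by
      intro M hM
      funext i
      have h1 := congrArg φ (hM i)
      rw [map_sum, map_zero] at h1
      have h2 : ∀ j, φ (((M i j : ℤ) : ℂ_[p]) * cf j x) = ((M i j : ℤ) : ℚ_[p]) * φ (cf j x) := by
        intro j
        have e : ((M i j : ℤ) : ℂ_[p]) * cf j x = ((M i j : ℤ) : ℚ_[p]) • cf j x := by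
          rw [Algebra.smul_def, map_intCast]
        rw [e, map_smul, smul_eq_mul]
      rw [Finset.sum_congr rfl fun j _ => h2 j] at h1
      apply PadicInt.ext
      rw [Matrix.mulVec, dotProduct, PadicInt.coe_sum]
      have h3 : ∀ j, (((M.map (Int.cast : ℤ → ℤ_[p]) i j * y j : ℤ_[p])) : ℚ_[p]) =
          (p : ℚ_[p]) ^ N * (((M i j : ℤ) : ℚ_[p]) * φ (cf j x)) := by
        intro j
        rw [PadicInt.coe_mul, hy, Matrix.map_apply]
        push_cast
        ring
      rw [Finset.sum_congr rfl fun j _ => h3 j, ← Finset.mul_sum, h1, mul_zero]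
      rfl
    refine ⟨y, ?_, ?_, ?_, ?_⟩
    · intro h0
      have h1 := hy i0
      rw [h0] at h1
      have h2 : (p : ℚ_[p]) ^ N * φ (cf i0 x) = 0 := h1.symm.trans (by rfl)
      exact (mul_ne_zero (pow_ne_zero _ hp0) hφ) h2
    · intro σ
      have h1 := hRAT p H L hL r (fun i => Units.fundSystem H i) (fun i => cf i x) σ (by
        intro σ' hσ'
        rw [← log_vec hL]
        exact hxL σ' (hT1 σ σ' hσ' σ.2)) φ
      have h2 : ∀ i, algebraMap ℚ_[p] ℂ_[p] ((y i : ℤ_[p]) : ℚ_[p]) * l σ i =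
          algebraMap ℚ_[p] ℂ_[p] ((p : ℚ_[p]) ^ N) * (algebraMap ℚ_[p] ℂ_[p] (φ (cf i x)) *
            L ((σ : H →+* ℂ_[p]) ((Units.fundSystem H i : 𝓞 H) : H))) := by
        intro i
        rw [hy, map_mul]
        ring
      rw [Finset.sum_congr rfl fun i _ => h2 i, ← Finset.mul_sum, h1, mul_zero]
    · rw [zero_smul]
      refine key D fun i => ?_
      rw [hD, hEδ, ← cf_end, hxδ, map_zero]
    · have h1 : (aeval (A.map (Int.cast : ℤ → ℤ_[p])) (cyclotomic (p ^ j) ℤ_[p])) =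
          (mat (aeval Eγ (cyclotomic (p ^ j) ℤ))).map (Int.cast : ℤ → ℤ_[p]) := by
        rw [mat_aeval]
        have h := Polynomial.map_aeval_eq_aeval_map (φ := Int.castRingHom ℤ_[p])
          (ψ := (Int.castRingHom ℤ_[p]).mapMatrix) (RingHom.ext_int _ _) (cyclotomic (p ^ j) ℤ) (mat Eγ)
        rw [map_cyclotomic_int] at h
        exact h.symm
      rw [h1]
      refine key _ fun i => ?_
      rw [hEγ, ← cf_end, hxγ, map_zero]) ⟨0, by simp⟩
  have hinj : Function.Injective (fun y : Fin r → ℤ => ((uz y).toMul : (𝓞 H)ˣ)) := by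
    intro y y' h
    have h1 : uz y = uz y' := h
    funext i
    rw [← cz_uz y i, h1, cz_uz]
  refine ⟨Y.image (fun y : Fin r → ℤ => ((uz y).toMul : (𝓞 H)ˣ)), ?_, ?_, ?_⟩
  · rw [Finset.card_image_of_injective _ hinj]
    exact hY1
  · intro a ha a' ha' hne ⟨w, hw⟩
    obtain ⟨y, hy, rfl⟩ := Finset.mem_image.1 ha
    obtain ⟨y', hy', rfl⟩ := Finset.mem_image.1 ha'
    refine hY2 y hy y' hy' (fun h => hne (by rw [h])) ⟨fun i => cz H i (Additive.ofMul w), ?_⟩
    have h1 : uz y = uz y' + p ^ J.card • Additive.ofMul w := hw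
    funext i
    have h2 := congrArg (cz H i) h1
    rw [map_add, cz_uz, cz_uz, map_nsmul] at h2
    rw [h2, Pi.add_apply, Pi.smul_apply, nsmul_eq_mul, smul_eq_mul]
    push_cast
    rfl
  · intro a ha
    obtain ⟨y, hy, rfl⟩ := Finset.mem_image.1 ha
    obtain ⟨⟨z1, hz1⟩, ⟨z2, hz2⟩, h3⟩ := hY3 y hy
    have hcE : ∀ (E : Module.End ℤ (Additive (𝓞 H)ˣ)) i, cz H i (E (uz y)) = ((mat E).mulVec y) i := by
      intro E i
      rw [cz_end]
      simp only [cz_uz]
      rfl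
    refine ⟨?_, ?_, ?_⟩
    · obtain ⟨w, hw⟩ := power_of_dvd hroot ((Eγ (uz y)).toMul * ((uz y).toMul)⁻¹) J.card (by
        intro i
        have h1 : cz H i (Additive.ofMul ((Eγ (uz y)).toMul * ((uz y).toMul)⁻¹)) =
            cz H i (Eγ (uz y)) - cz H i (uz y) := by
          rw [← map_sub]
          congr 1
        rw [h1, hcE, ← hA, hz1, cz_uz, Pi.add_apply, Pi.smul_apply, smul_eq_mul]
        exact ⟨z1 i, by ring⟩)
      refine ⟨w, ?_⟩
      have h4 : ((Eγ (uz y)).toMul : (𝓞 H)ˣ) = (uz y).toMul * w ^ p ^ J.card := by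
        rw [← hw, mul_comm, inv_mul_cancel_right]
      have h5 : ((((Eγ (uz y)).toMul : (𝓞 H)ˣ) : 𝓞 H) : H) =
          ((((uz y).toMul * w ^ p ^ J.card : (𝓞 H)ˣ) : 𝓞 H) : H) := by rw [h4]
      rw [hEγ, uE_apply, coe_unitHom] at h5
      rw [Units.val_mul, Units.val_pow_eq_pow_val] at h5
      have h6 : (((((uz y).toMul : (𝓞 H)ˣ) : 𝓞 H) * ((w : 𝓞 H)) ^ p ^ J.card : 𝓞 H) : H) =
          ((((uz y).toMul : (𝓞 H)ˣ) : 𝓞 H) : H) * ((w : 𝓞 H) : H) ^ p ^ J.card := by
        push_cast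
        rfl
      rw [h6] at h5
      exact h5
    · obtain ⟨w, hw⟩ := power_of_dvd hroot (Eδ (uz y)).toMul J.card (by
        intro i
        have h1 : cz H i (Additive.ofMul (Eδ (uz y)).toMul) = cz H i (Eδ (uz y)) := rfl
        rw [h1, hcE, ← hD, hz2, Pi.add_apply, Pi.smul_apply, Pi.smul_apply, smul_eq_mul, smul_eq_mul,
          zero_mul, zero_add]
        exact ⟨z2 i, rfl⟩)
      refine ⟨w, ?_⟩
      have h4 : Eδ (uz y) = p ^ J.card • Additive.ofMul w := hw
      exact h4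
    · intro ε hε
      obtain ⟨z, hz⟩ := h3 ε hε
      refine ⟨(uz z).toMul, fun σ hσ => ?_⟩
      have h4 := hz ⟨σ, hσ⟩
      rw [log_dec hL σ]
      have h5 : ∀ j, cz H j (Additive.ofMul ((uz y).toMul * ((uz z).toMul) ^ p ^ J.card)) =
          (y + (p : ℤ) ^ J.card • z) j := by
        intro j
        have h6 : Additive.ofMul ((uz y).toMul * ((uz z).toMul) ^ p ^ J.card) =
            uz y + p ^ J.card • uz z := rfl
        rw [h6, map_add, map_nsmul, cz_uz, cz_uz, Pi.add_apply, Pi.smul_apply, nsmul_eq_mul,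
          smul_eq_mul]
        push_cast
        rfl
      simp only [h5]
      exact h4

/-- **S_UNI** -/
theorem s_UNI : S_UNI := s_UNI_of Pool.Agent.L7h1.PX.s_LAT s_RAT

end Pool.Agent.L7h97.PX
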