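import Pool.Agent.L7h97.PX.Unq
import Pool.Agent.W332.SL6.Chi

/-!
# Project PX: Leopoldt's conjecture for abelian fields (S_ABL)
-/

set_option autoImplicit false

namespace Pool.Agent.L7h97.PX

open NumberField TensorProduct Pool.Agent.W289.SL Pool.Agent.L7h1.PX Module
open Pool.Agent.W332.SL6
open Pool.Agent.W254.PA (exists_theta)
open NumberField.Units

variable {p : ℕ} [Fact p.Prime]

/-- sum over the characters of a finite abelian group -/
theorem sum_char {G : Type} [Group G] [Finite G] (hc : ∀ g h : G, g * h = h * g)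
    [Fintype (G →* ℂ_[p]ˣ)] (g : G) (hg : g ≠ 1) :
    ∑ χ : G →* ℂ_[p]ˣ, ((χ g : ℂ_[p]ˣ) : ℂ_[p]) = 0 := by
  let _ : CommGroup G := { ‹Group G› with mul_comm := hc }
  have : NeZero (Monoid.exponent G) := ⟨Monoid.exponent_ne_zero_of_finite⟩
  have : NeZero ((Monoid.exponent G : ℕ) : ℂ_[p]) := ⟨by
    exact_mod_cast Monoid.exponent_ne_zero_of_finite⟩
  obtain ⟨χ₀, h0⟩ := CommGroup.exists_apply_ne_one_of_hasEnoughRootsOfUnity G ℂ_[p] hg
  have h1 : ∑ χ : G →* ℂ_[p]ˣ, ((χ g : ℂ_[p]ˣ) : ℂ_[p]) =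
      ∑ χ : G →* ℂ_[p]ˣ, (((χ₀ * χ) g : ℂ_[p]ˣ) : ℂ_[p]) :=
    (Equiv.sum_comp (Equiv.mulLeft χ₀) fun χ : G →* ℂ_[p]ˣ => ((χ g : ℂ_[p]ˣ) : ℂ_[p])).symm
  have h2 : ∑ χ : G →* ℂ_[p]ˣ, (((χ₀ * χ) g : ℂ_[p]ˣ) : ℂ_[p]) =
      ((χ₀ g : ℂ_[p]ˣ) : ℂ_[p]) * ∑ χ : G →* ℂ_[p]ˣ, ((χ g : ℂ_[p]ˣ) : ℂ_[p]) := by
    rw [Finset.mul_sum]
    refine Finset.sum_congr rfl fun χ _ => ?_
    rw [MonoidHom.mul_apply, Units.val_mul]
  rw [h2] at h1
  have h3 : (((χ₀ g : ℂ_[p]ˣ) : ℂ_[p]) - 1) * ∑ χ : G →* ℂ_[p]ˣ, ((χ g : ℂ_[p]ˣ) : ℂ_[p]) = 0 := by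
    linear_combination -h1
  rcases mul_eq_zero.1 h3 with h4 | h4
  · exfalso
    apply h0
    apply Units.ext
    rw [Units.val_one]
    exact sub_eq_zero.1 h4
  · exact h4

section leo

variable {F : Type} [Field F] [NumberField F]

theorem push_id (x : UM p F) : push (RingHom.id F) x = x := by
  induction x using TensorProduct.induction_on with
  | zero => simp
  | tmul c u =>
    rw [push_tmul]
    congr 1
  | add x y hx hy => rw [map_add, hx, hy]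

/-- the projection to the `χ`-part, up to a constant -/
noncomputable def pr (χ : (F ≃ₐ[ℚ] F) →* ℂ_[p]ˣ) (x : UM p F) : UM p F :=
  ∑ g : F ≃ₐ[ℚ] F, ((χ g⁻¹ : ℂ_[p]ˣ) : ℂ_[p]) • actLin p (g : F →+* F) x

theorem pr_inChi (χ : (F ≃ₐ[ℚ] F) →* ℂ_[p]ˣ) (x : UM p F) : InChi χ (pr χ x) := by
  intro τ
  unfold pr
  rw [map_sum, Finset.smul_sum]
  rw [← Equiv.sum_comp (Equiv.mulLeft τ⁻¹)]
  refine Finset.sum_congr rfl fun g _ => ?_
  rw [map_smul, actLin_eq, actLin_eq, push_push, Equiv.coe_mulLeft, smul_smul]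
  have h1 : ((τ : F →+* F).comp ((τ⁻¹ * g : F ≃ₐ[ℚ] F) : F →+* F)) = (g : F →+* F) := by
    ext y
    show τ ((τ⁻¹ * g) y) = g y
    rw [← AlgEquiv.mul_apply, mul_inv_cancel_left]
  rw [h1, actLin_eq]
  congr 1
  rw [mul_inv_rev, inv_inv, map_mul, Units.val_mul, mul_comm]

theorem pr_tmul (χ : (F ≃ₐ[ℚ] F) →* ℂ_[p]ˣ) (c : ℂ_[p]) (u : Additive (𝓞 F)ˣ) :
    pr χ (c ⊗ₜ[ℤ] u) = c • xu χ u := by
  unfold pr xu
  rw [Finset.smul_sum]
  refine Finset.sum_congr rfl fun g _ => ?_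
  rw [actLin_eq, push_tmul, smul_comm c]
  congr 1
  rw [TensorProduct.smul_tmul', smul_eq_mul, mul_one]

theorem pr_add (χ : (F ≃ₐ[ℚ] F) →* ℂ_[p]ˣ) (x y : UM p F) : pr χ (x + y) = pr χ x + pr χ y := by
  unfold pr
  rw [← Finset.sum_add_distrib]
  refine Finset.sum_congr rfl fun g _ => ?_
  rw [map_add, smul_add]

theorem pr_zero (χ : (F ≃ₐ[ℚ] F) →* ℂ_[p]ˣ) (hx : ∀ u, xu (p := p) χ u = 0) (x : UM p F) :
    pr χ x = 0 := by
  induction x using TensorProduct.induction_on with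
  | zero => unfold pr; simp
  | tmul c u => rw [pr_tmul, hx, smul_zero]
  | add x y h1 h2 => rw [pr_add, h1, h2, add_zero]

variable [IsGalois ℚ F]

/-- one character -/
theorem leo_chi {L : ℂ_[p] → ℂ_[p]} (hL : IsIwasawaLog p L) (χ : (F ≃ₐ[ℚ] F) →* ℂ_[p]ˣ)
    (y : UM p F) (hy : InChi χ y) (h : ∀ τ : F →+* ℂ_[p], logLin hL τ y = 0) : y = 0 := by
  classical
  by_contra hne
  obtain ⟨θ⟩ := exists_theta p
  have hs : ∃ s0 : F →+* ℂ, lam θ s0 y ≠ 0 := by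
    by_contra hcon
    push Not at hcon
    exact hne (eq_zero_of_lam θ y hcon)
  obtain ⟨s0, hs0⟩ := hs
  have hzero : ∀ y' : UM p F, InChi χ y' → lam θ s0 y' = 0 → y' = 0 := by
    intro y' hy' h0
    refine eq_zero_of_lam θ y' fun s => ?_
    obtain ⟨τ, hτ⟩ := exists_aut (K := ℚ) s s0 (RingHom.ext_rat _ _)
    rw [hτ, lam_inChi θ hy', h0, mul_zero]
  have hxu : ∀ u, xu (p := p) χ u = 0 := by
    intro u
    set c : ℂ_[p] := lam θ s0 (xu χ u) / lam θ s0 y with hc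
    have h1 : xu χ u - c • y = 0 := by
      refine hzero _ (fun τ => by
        rw [map_sub, map_smul, xu_inChi χ u τ, hy τ, smul_sub, smul_comm]) ?_
      rw [map_sub, map_smul, smul_eq_mul, hc, div_mul_cancel₀ _ hs0, sub_self]
    have h2 : xu χ u = c • y := sub_eq_zero.1 h1
    refine eq_zero_of_log hL ((θ.symm : ℂ →+* ℂ_[p]).comp s0) (xu_mem_AU χ u) ?_
    rw [h2, map_smul, h, smul_zero]
  have h3 := pr_zero χ hxu y
  have h4 : pr χ y = (Fintype.card (F ≃ₐ[ℚ] F) : ℂ_[p]) • y := by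
    unfold pr
    have h5 : ∀ g : F ≃ₐ[ℚ] F, ((χ g⁻¹ : ℂ_[p]ˣ) : ℂ_[p]) • actLin p (g : F →+* F) y = y := by
      intro g
      rw [hy g, smul_smul, ← Units.val_mul, ← map_mul, inv_mul_cancel, map_one, Units.val_one,
        one_smul]
    rw [Finset.sum_congr rfl fun g _ => h5 g, Finset.sum_const, Finset.card_univ,
      Nat.cast_smul_eq_nsmul]
  rw [h4] at h3
  rcases smul_eq_zero.1 h3 with h5 | h5
  · exact Fintype.card_ne_zero (α := F ≃ₐ[ℚ] F) (by exact_mod_cast h5)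
  · exact hne h5

/-- Leopoldt's conjecture for abelian fields -/
theorem leo {L : ℂ_[p] → ℂ_[p]} (hL : IsIwasawaLog p L)
    (hc : ∀ g h : F ≃ₐ[ℚ] F, g * h = h * g) (x : UM p F)
    (h : ∀ τ : F →+* ℂ_[p], logLin hL τ x = 0) : x = 0 := by
  classical
  have hfin : Finite ((F ≃ₐ[ℚ] F) →* ℂ_[p]ˣ) := by
    let _ : CommGroup (F ≃ₐ[ℚ] F) := { (inferInstance : Group (F ≃ₐ[ℚ] F)) with mul_comm := hc }
    have : NeZero (Monoid.exponent (F ≃ₐ[ℚ] F)) := ⟨Monoid.exponent_ne_zero_of_finite⟩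
    have : NeZero ((Monoid.exponent (F ≃ₐ[ℚ] F) : ℕ) : ℂ_[p]) := ⟨by
      exact_mod_cast Monoid.exponent_ne_zero_of_finite⟩
    obtain ⟨e⟩ := CommGroup.monoidHom_mulEquiv_of_hasEnoughRootsOfUnity (F ≃ₐ[ℚ] F) ℂ_[p]
    exact Finite.of_equiv _ e.symm.toEquiv
  let _ : Fintype ((F ≃ₐ[ℚ] F) →* ℂ_[p]ˣ) := Fintype.ofFinite _
  have hpr : ∀ χ : (F ≃ₐ[ℚ] F) →* ℂ_[p]ˣ, pr χ x = 0 := by
    intro χ
    refine leo_chi hL χ _ (pr_inChi χ x) fun τ => ?_
    unfold pr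
    rw [map_sum]
    refine Finset.sum_eq_zero fun g _ => ?_
    rw [map_smul, actLin_eq, logLin_push, h, smul_zero]
  have h1 : ∑ χ : (F ≃ₐ[ℚ] F) →* ℂ_[p]ˣ, pr χ x =
      (Fintype.card ((F ≃ₐ[ℚ] F) →* ℂ_[p]ˣ) : ℂ_[p]) • x := by
    unfold pr
    rw [Finset.sum_comm]
    rw [Finset.sum_eq_single (1 : F ≃ₐ[ℚ] F)]
    · have h2 : ∀ χ : (F ≃ₐ[ℚ] F) →* ℂ_[p]ˣ,
          ((χ (1 : F ≃ₐ[ℚ] F)⁻¹ : ℂ_[p]ˣ) : ℂ_[p]) • actLin p ((1 : F ≃ₐ[ℚ] F) : F →+* F) x = x := by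
        intro χ
        rw [inv_one, map_one, Units.val_one, one_smul, actLin_eq]
        have h3 : ((1 : F ≃ₐ[ℚ] F) : F →+* F) = RingHom.id F := by
          ext y
          rfl
        rw [h3, push_id]
      rw [Finset.sum_congr rfl fun χ _ => h2 χ, Finset.sum_const, Finset.card_univ,
        Nat.cast_smul_eq_nsmul]
    · intro g _ hg
      rw [← Finset.sum_smul]
      rw [sum_char hc g⁻¹ (by simpa using hg), zero_smul]
    · intro h
      exact absurd (Finset.mem_univ _) h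
  rw [Finset.sum_eq_zero fun χ _ => hpr χ] at h1
  rcases smul_eq_zero.1 h1.symm with h5 | h5
  · exact absurd (by exact_mod_cast h5) (Fintype.card_ne_zero (α := (F ≃ₐ[ℚ] F) →* ℂ_[p]ˣ))
  · exact h5

end leo

/-! ### quadratic CM extensions -/

section cm

variable {F B : Type} [Field F] [NumberField F] [IsTotallyReal F] [Field B] [NumberField B]
  [IsTotallyComplex B] [Algebra F B]

theorem norm_aut [IsGalois F B] (hB : finrank F B = 2) (s : B →+* ℂ) (g : B ≃ₐ[F] B) (y : B) :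
    ‖s (g y)‖ = ‖s y‖ := by
  classical
  have hreal : (starRingEnd ℂ).comp (s.comp (algebraMap F B)) = s.comp (algebraMap F B) := by
    have h1 := IsTotallyReal.isReal (InfinitePlace.mk (s.comp (algebraMap F B)))
    rw [InfinitePlace.isReal_mk_iff] at h1
    exact h1
  obtain ⟨c, hc⟩ := exists_aut (K := F) ((starRingEnd ℂ).comp s) s (by
    rw [RingHom.comp_assoc]
    exact hreal)
  have hc1 : c ≠ 1 := by
    rintro rfl
    refine IsTotallyComplex.complexEmbedding_not_isReal s ?_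
    rw [ComplexEmbedding.isReal_iff]
    ext y
    have := RingHom.congr_fun hc y
    exact this
  have hcard : Nat.card (B ≃ₐ[F] B) = 2 := by rw [IsGalois.card_aut_eq_finrank, hB]
  by_cases hg : g = 1
  · subst hg
    rfl
  · have hgc : g = c := by
      obtain ⟨z, hz, hz2⟩ := (Nat.card_eq_two_iff' (1 : B ≃ₐ[F] B)).1 hcard
      rw [hz2 g hg, hz2 c hc1]
    have h2 := RingHom.congr_fun hc y
    rw [hgc]
    have h3 : s (c y) = (starRingEnd ℂ) (s y) := h2.symm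
    rw [h3]
    exact Complex.norm_conj _

theorem one_tmul_aut [IsGalois F B] (hB : finrank F B = 2) (g : B ≃ₐ[F] B) (u : Additive (𝓞 B)ˣ) :
    (1 : ℂ_[p]) ⊗ₜ[ℤ] (uMap (g : B →+* B) u) = (1 : ℂ_[p]) ⊗ₜ[ℤ] u := by
  set v : (𝓞 B)ˣ := Additive.toMul (uMap (g : B →+* B) u) * (Additive.toMul u)⁻¹ with hv
  have hvt : v ∈ torsion B := by
    rw [mem_torsion]
    intro w
    obtain ⟨s, rfl⟩ : ∃ s : B →+* ℂ, InfinitePlace.mk s = w := ⟨w.embedding, w.mk_embedding⟩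
    have h1 : ((v : 𝓞 B) : B) * ((Additive.toMul u : (𝓞 B)ˣ) : 𝓞 B) =
        g ((Additive.toMul u : (𝓞 B)ˣ) : 𝓞 B) := by
      have h2 : v * Additive.toMul u = Additive.toMul (uMap (g : B →+* B) u) := by
        rw [hv, inv_mul_cancel_right]
      have h3 := congrArg (fun x : (𝓞 B)ˣ => ((x : 𝓞 B) : B)) h2
      refine Eq.trans ?_ h3
      exact (map_mul (algebraMap (𝓞 B) B) _ _).symm
    have h4 := congrArg (fun x => ‖s x‖) h1
    simp only [map_mul, norm_mul] at h4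
    rw [norm_aut hB s g] at h4
    have h5 : ‖s ((Additive.toMul u : (𝓞 B)ˣ) : 𝓞 B)‖ ≠ 0 := by
      rw [norm_ne_zero_iff, Ne, map_eq_zero]
      simp
    show ‖s ((v : 𝓞 B) : B)‖ = 1
    exact mul_right_cancel₀ h5 (h4.trans (one_mul _).symm)
  have h6 := one_tmul_torsion (p := p) v hvt
  have h7 : (Additive.ofMul v : Additive (𝓞 B)ˣ) = uMap (g : B →+* B) u - u := by
    rw [hv, ofMul_mul, ofMul_inv]
    rw [sub_eq_add_neg]
    rfl
  rw [h7, TensorProduct.tmul_sub, sub_eq_zero] at h6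
  exact h6

theorem push_surj (hB : finrank F B = 2) (x : UM p B) :
    ∃ y : UM p F, push (algebraMap F B) y = x := by
  classical
  have : Algebra.IsQuadraticExtension F B := ⟨hB⟩
  have : IsGalois F B := inferInstance
  have hcard : Fintype.card (B ≃ₐ[F] B) = 2 := by
    rw [← Nat.card_eq_fintype_card, IsGalois.card_aut_eq_finrank, hB]
  induction x using TensorProduct.induction_on with
  | zero => exact ⟨0, map_zero _⟩
  | tmul c u =>
    set m : Additive (𝓞 F)ˣ := Additive.ofMul (Units.map (RingOfIntegers.norm F) (Additive.toMul u))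
      with hm
    have h1 : uMap (algebraMap F B) m = ∑ g : B ≃ₐ[F] B, uMap (g : B →+* B) u := by
      apply Additive.toMul.injective
      rw [toMul_sum]
      apply Units.ext
      apply RingOfIntegers.ext
      rw [uMap_coe]
      rw [Units.coe_prod]
      refine Eq.trans ?_ (map_prod (algebraMap (𝓞 B) B) _ _).symm
      have h2 : ((Additive.toMul m : (𝓞 F)ˣ) : 𝓞 F) = RingOfIntegers.norm F
        ((Additive.toMul u : (𝓞 B)ˣ) : 𝓞 B) := rfl
      rw [h2]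
      have h3 := Algebra.norm_eq_prod_automorphisms F (((Additive.toMul u : (𝓞 B)ˣ) : 𝓞 B) : B)
      exact h3
    refine ⟨(c / 2) ⊗ₜ[ℤ] m, ?_⟩
    rw [push_tmul, h1, TensorProduct.tmul_sum]
    have h4 : ∀ g : B ≃ₐ[F] B, (c / 2) ⊗ₜ[ℤ] (uMap (g : B →+* B) u) = (c / 2) ⊗ₜ[ℤ] u := by
      intro g
      have h5 := congrArg (fun x : UM p B => (c / 2) • x) (one_tmul_aut (p := p) hB g u)
      simp only [TensorProduct.smul_tmul', smul_eq_mul, mul_one] at h5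
      exact h5
    rw [Finset.sum_congr rfl fun g _ => h4 g, Finset.sum_const, Finset.card_univ, hcard,
      two_smul, ← TensorProduct.add_tmul, add_halves]
  | add x y hx hy =>
    obtain ⟨x', hx'⟩ := hx
    obtain ⟨y', hy'⟩ := hy
    exact ⟨x' + y', by rw [map_add, hx', hy']⟩

end cm

theorem s_ABL : S_ABL := by
  intro p _ F B _ _ _ _ _ _ _ _ hc hB L hL T hT x hx
  obtain ⟨y, rfl⟩ := push_surj hB x
  have hy : y = 0 := by
    refine leo hL hc y fun τ => ?_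
    obtain ⟨σ, hσ, hσ2⟩ := hT τ
    have h1 := hx σ hσ
    rw [logLin_push, hσ2] at h1
    exact h1
  rw [hy, map_zero]

end Pool.Agent.L7h97.PX
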