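import Pool.Agent.L7h1.PX.Stm3

/-!
# Project PX: the average over the characters (S_AVG)
-/

set_option autoImplicit false

namespace Pool.Agent.L7h97.PX

open Pool.Agent.L7h1.PX

section abs

variable {X : Type} [CommGroup X] {p : ℕ} [Fact p.Prime] {n : ℕ}

theorem ord_pow {j : ℕ} (hj : j ≤ n) {x : X} (hx : orderOf x = p ^ n) :
    orderOf (x ^ p ^ (n - j)) = p ^ j := by
  have hp : p.Prime := Fact.out
  rw [orderOf_pow' x (pow_ne_zero _ hp.ne_zero), hx,
    Nat.gcd_eq_right (pow_dvd_pow p (Nat.sub_le n j)),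
    Nat.pow_div (Nat.sub_le n j) hp.pos, Nat.sub_sub_self hj]

theorem ord_of_pow (hE : ∀ x : X, x ^ p ^ n = 1) {j : ℕ} (hj1 : 1 ≤ j) (hj : j ≤ n) {x : X}
    (hx : orderOf (x ^ p ^ (n - j)) = p ^ j) : orderOf x = p ^ n := by
  have hp : p.Prime := Fact.out
  obtain ⟨m, hm, hxm⟩ := (Nat.dvd_prime_pow hp).1 (orderOf_dvd_of_pow_eq_one (hE x))
  rw [orderOf_pow' x (pow_ne_zero _ hp.ne_zero), hxm] at hx
  by_cases h : n - j ≤ m
  · rw [Nat.gcd_eq_right (pow_dvd_pow p h), Nat.pow_div h hp.pos] at hx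
    have h1 := Nat.pow_right_injective hp.two_le hx
    have h2 : m = n := by omega
    rw [hxm, h2]
  · rw [Nat.gcd_eq_left (pow_dvd_pow p (by omega)), Nat.div_self (pow_pos hp.pos _)] at hx
    have h1 : p ^ 0 = p ^ j := by rw [pow_zero]; exact hx
    have := Nat.pow_right_injective hp.two_le h1
    omega

variable [Fintype X]

open Classical in
theorem fiber_card (hE : ∀ x : X, x ^ p ^ n = 1)
    (hD : ∀ j ≤ n, ∀ y : X, y ^ p ^ j = 1 → ∃ x : X, x ^ p ^ (n - j) = y) {j : ℕ} (hj1 : 1 ≤ j)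
    (hj : j ≤ n) (F : Set X) :
    (Finset.univ.filter fun x : X => orderOf x = p ^ n ∧ x ^ p ^ (n - j) ∈ F).card =
      (Finset.univ.filter fun y : X => y ∈ F ∧ orderOf y = p ^ j).card *
        (Finset.univ.filter fun x : X => x ^ p ^ (n - j) = 1).card := by
  rw [Finset.card_eq_sum_card_fiberwise (f := fun x : X => x ^ p ^ (n - j))
    (t := Finset.univ.filter fun y : X => y ∈ F ∧ orderOf y = p ^ j)]
  · rw [Finset.sum_const_nat (m := (Finset.univ.filter fun x : X => x ^ p ^ (n - j) = 1).card)]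
    intro y hy
    rw [Finset.mem_filter] at hy
    obtain ⟨-, hyF, hyo⟩ := hy
    obtain ⟨x0, hx0⟩ := hD j hj y (by rw [← hyo]; exact pow_orderOf_eq_one y)
    symm
    refine Finset.card_bij (fun k _ => x0 * k) ?_ ?_ ?_
    · intro k hk
      rw [Finset.mem_filter] at hk
      have h1 : (x0 * k) ^ p ^ (n - j) = y := by rw [mul_pow, hx0, hk.2, mul_one]
      rw [Finset.mem_filter, Finset.mem_filter]
      refine ⟨⟨Finset.mem_univ _, ord_of_pow hE hj1 hj (by rw [h1]; exact hyo), by rw [h1]; exact hyF⟩, h1⟩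
    · intro a _ b _ h
      exact mul_left_cancel h
    · intro b hb
      rw [Finset.mem_filter] at hb
      refine ⟨x0⁻¹ * b, ?_, by group⟩
      rw [Finset.mem_filter]
      refine ⟨Finset.mem_univ _, ?_⟩
      rw [mul_pow, inv_pow, hx0, hb.2, inv_mul_cancel]
  · intro x hx
    rw [Finset.mem_coe, Finset.mem_filter] at hx
    rw [Finset.mem_coe, Finset.mem_filter]
    exact ⟨Finset.mem_univ _, hx.2.2, ord_pow hj hx.2.1⟩

open Classical in
theorem avg_abs (hE : ∀ x : X, x ^ p ^ n = 1)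
    (hD : ∀ j ≤ n, ∀ y : X, y ^ p ^ j = 1 → ∃ x : X, x ^ p ^ (n - j) = y) (F : Set X) (e : ℕ)
    (h : ∀ x : X, orderOf x = p ^ n →
      ((Finset.Icc 1 n).filter fun j => x ^ p ^ (n - j) ∈ F).card ≤ e) :
    ∑ j ∈ Finset.Icc 1 n, ((Finset.univ.filter fun y : X => y ∈ F ∧ orderOf y = p ^ j).card : ℝ) /
      ((Finset.univ.filter fun y : X => orderOf y = p ^ j).card : ℝ) ≤ e := by
  set O := Finset.univ.filter fun x : X => orderOf x = p ^ n with hO
  have hK : ∀ j, 0 < (Finset.univ.filter fun x : X => x ^ p ^ (n - j) = 1).card := fun j =>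
    Finset.card_pos.2 ⟨1, by rw [Finset.mem_filter]; exact ⟨Finset.mem_univ _, one_pow _⟩⟩
  have h1 : ∀ j ∈ Finset.Icc 1 n,
      ((Finset.univ.filter fun y : X => y ∈ F ∧ orderOf y = p ^ j).card : ℝ) /
      ((Finset.univ.filter fun y : X => orderOf y = p ^ j).card : ℝ) =
      ((O.filter fun x => x ^ p ^ (n - j) ∈ F).card : ℝ) / (O.card : ℝ) := by
    intro j hj
    rw [Finset.mem_Icc] at hj
    have a1 := fiber_card hE hD hj.1 hj.2 F
    have a2 := fiber_card hE hD hj.1 hj.2 (Set.univ : Set X)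
    simp only [Set.mem_univ, and_true, true_and] at a2
    have a3 : (O.filter fun x => x ^ p ^ (n - j) ∈ F) =
        Finset.univ.filter fun x : X => orderOf x = p ^ n ∧ x ^ p ^ (n - j) ∈ F := by
      rw [hO, Finset.filter_filter]
    rw [a3, a1, hO, a2]
    push_cast
    rw [mul_div_mul_right]
    exact_mod_cast (hK j).ne'
  rw [Finset.sum_congr rfl h1, ← Finset.sum_div, ← Nat.cast_sum]
  have h2 : ∑ j ∈ Finset.Icc 1 n, (O.filter fun x => x ^ p ^ (n - j) ∈ F).card =
      ∑ x ∈ O, ((Finset.Icc 1 n).filter fun j => x ^ p ^ (n - j) ∈ F).card := by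
    simp only [Finset.card_filter]
    exact Finset.sum_comm
  rw [h2]
  have h3 : ∑ x ∈ O, ((Finset.Icc 1 n).filter fun j => x ^ p ^ (n - j) ∈ F).card ≤ O.card * e := by
    rw [← smul_eq_mul]
    exact Finset.sum_le_card_nsmul _ _ _ fun x hx => h x (by rw [hO, Finset.mem_filter] at hx; exact hx.2)
  have h4 : ((∑ x ∈ O, ((Finset.Icc 1 n).filter fun j => x ^ p ^ (n - j) ∈ F).card : ℕ) : ℝ) ≤
      (O.card : ℝ) * e := by exact_mod_cast h3
  rcases Nat.eq_zero_or_pos O.card with h0 | h0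
  · rw [h0, Nat.cast_zero, div_zero]
    positivity
  · have h5 : (0 : ℝ) < O.card := by exact_mod_cast h0
    rw [div_le_iff₀ h5, mul_comm]
    exact h4

end abs

/-- the model -/
theorem model (p : ℕ) [Fact p.Prime] (n r : ℕ) :
    (∀ x : Fin r → Multiplicative (ZMod (p ^ n)), x ^ p ^ n = 1) ∧
    (∀ j ≤ n, ∀ y : Fin r → Multiplicative (ZMod (p ^ n)), y ^ p ^ j = 1 →
      ∃ x : Fin r → Multiplicative (ZMod (p ^ n)), x ^ p ^ (n - j) = y) := by
  have hp : p.Prime := Fact.out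
  have hne : NeZero (p ^ n) := ⟨pow_ne_zero _ hp.ne_zero⟩
  constructor
  · intro x
    funext i
    rw [Pi.pow_apply, Pi.one_apply]
    apply Multiplicative.toAdd.injective
    rw [toAdd_pow, toAdd_one, nsmul_eq_mul, ZMod.natCast_self, zero_mul]
  · intro j hj y hy
    have h1 : ∀ i, ∃ b : ZMod (p ^ n), (p ^ (n - j)) • b = (y i).toAdd := by
      intro i
      have h2 : (p ^ j) • (y i).toAdd = 0 := by
        have := congrFun hy i
        rw [Pi.pow_apply, Pi.one_apply] at this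
        have h3 := congrArg Multiplicative.toAdd this
        rwa [toAdd_pow, toAdd_one] at h3
      set a := (y i).toAdd with ha
      have h3 : p ^ n ∣ p ^ j * a.val := by
        rw [← ZMod.natCast_eq_zero_iff]
        rw [nsmul_eq_mul] at h2
        rw [Nat.cast_mul, ZMod.natCast_zmod_val]
        exact h2
      have h4 : p ^ n = p ^ j * p ^ (n - j) := by rw [← pow_add, Nat.add_sub_cancel' hj]
      have h5 : p ^ j * p ^ (n - j) ∣ p ^ j * a.val := (dvd_of_eq h4.symm).trans h3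
      obtain ⟨c, hc⟩ := (Nat.mul_dvd_mul_iff_left (pow_pos hp.pos j)).1 h5
      refine ⟨(c : ZMod (p ^ n)), ?_⟩
      rw [nsmul_eq_mul, ← Nat.cast_mul, ← hc, ZMod.natCast_zmod_val]
    choose b hb using h1
    refine ⟨fun i => Multiplicative.ofAdd (b i), ?_⟩
    funext i
    rw [Pi.pow_apply]
    apply Multiplicative.toAdd.injective
    rw [toAdd_pow, toAdd_ofAdd]
    exact hb i

theorem dual_equiv (p : ℕ) [Fact p.Prime] (G : Type) [Group G] [Finite G]
    (hG : ∀ a b : G, a * b = b * a) : Nonempty ((G →* ℂ_[p]ˣ) ≃* G) := by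
  let I : CommGroup G := { ‹Group G› with mul_comm := hG }
  have hexp : NeZero ((Monoid.exponent G : ℕ) : ℂ_[p]) := by
    refine ⟨?_⟩
    have : Monoid.exponent G ≠ 0 := Monoid.exponent_ne_zero_of_finite
    exact_mod_cast this
  exact CommGroup.monoidHom_mulEquiv_of_hasEnoughRootsOfUnity G ℂ_[p]

theorem avg_of {X : Type} [CommGroup X] (p : ℕ) [Fact p.Prime] (n r e : ℕ)
    (Ψ : X ≃* (Fin r → Multiplicative (ZMod (p ^ n)))) (F : Set X)
    (h : ∀ κ : X, orderOf κ = p ^ n →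
      {j : ℕ | 1 ≤ j ∧ j ≤ n ∧ κ ^ p ^ (n - j) ∈ F}.ncard ≤ e) :
    ∑ j ∈ Finset.Icc 1 n, ({κ : X | κ ∈ F ∧ orderOf κ = p ^ j}.ncard : ℝ) /
      ({κ : X | orderOf κ = p ^ j}.ncard : ℝ) ≤ e := by
  classical
  have hne : NeZero (p ^ n) := ⟨pow_ne_zero _ (Fact.out : p.Prime).ne_zero⟩
  have hfin : Finite X := Finite.of_equiv _ Ψ.symm.toEquiv
  let _ : Fintype X := Fintype.ofFinite _
  obtain ⟨m1, m2⟩ := model p n r
  have hE : ∀ x : X, x ^ p ^ n = 1 := by
    intro x
    apply Ψ.injective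
    rw [map_pow, map_one]
    exact m1 _
  have hD : ∀ j ≤ n, ∀ y : X, y ^ p ^ j = 1 → ∃ x : X, x ^ p ^ (n - j) = y := by
    intro j hj y hy
    obtain ⟨x, hx⟩ := m2 j hj (Ψ y) (by rw [← map_pow, hy, map_one])
    refine ⟨Ψ.symm x, ?_⟩
    rw [← map_pow, hx, Ψ.symm_apply_apply]
  have key := avg_abs hE hD F e (by
    intro x hx
    refine le_trans (le_of_eq ?_) (h x hx)
    rw [← Set.ncard_coe_finset]
    congr 1
    ext j
    simp [and_assoc])
  have hc1 : ∀ j, ({κ : X | κ ∈ F ∧ orderOf κ = p ^ j}.ncard) =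
      (Finset.univ.filter fun y : X => y ∈ F ∧ orderOf y = p ^ j).card := by
    intro j
    rw [← Set.ncard_coe_finset]
    congr 1
    ext κ
    simp
  have hc2 : ∀ j, ({κ : X | orderOf κ = p ^ j}.ncard) =
      (Finset.univ.filter fun y : X => orderOf y = p ^ j).card := by
    intro j
    rw [← Set.ncard_coe_finset]
    congr 1
    ext κ
    simp
  simp only [hc1, hc2]
  exact key

theorem s_AVG : S_AVG := by
  intro p _ n r e G _ _ hG ⟨φ⟩ F h
  obtain ⟨ψ⟩ := dual_equiv p G hG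
  exact avg_of p n r e (ψ.trans φ) F h

end Pool.Agent.L7h97.PX
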