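import Pool.Agent.L7h1.PX.Stm3
import Pool.Agent.L7h28.PX.Bnd

/-!
# Project PX: elements fixed by the Galois group come from below (S_DSC)
-/

set_option autoImplicit false

namespace Pool.Agent.L7h97.PX

open NumberField TensorProduct Pool.Agent.W289.SL Module Polynomial Pool.Agent.L7h1.PX
open Pool.Agent.L7h28.PX (act_tmul)

section

variable {p : ℕ} [Fact p.Prime] {H' H : Type} [Field H'] [NumberField H'] [Field H]
  [NumberField H] [Algebra H' H] [IsGalois H' H]

/-- the trace comes from below -/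
theorem trace_below (x : UM p H) : ∃ y : UM p H',
    Pool.Agent.Helper864WL.act p (algebraMap H' H) y = ∑ g : H ≃ₐ[H'] H, actLin p (g : H →+* H) x := by
  have : FiniteDimensional H' H := Module.Finite.of_restrictScalars_finite ℚ H' H
  induction x using TensorProduct.induction_on with
  | zero => exact ⟨0, by simp⟩
  | add x y hx hy =>
    obtain ⟨a, ha⟩ := hx
    obtain ⟨b, hb⟩ := hy
    refine ⟨a + b, ?_⟩
    rw [map_add, ha, hb, ← Finset.sum_add_distrib]
    exact Finset.sum_congr rfl fun g _ => (map_add _ _ _).symm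
  | tmul c u =>
    let N : (𝓞 H')ˣ := Units.map (RingOfIntegers.norm H' (L := H)) u.toMul
    refine ⟨c ⊗ₜ[ℤ] Additive.ofMul N, ?_⟩
    have h1 : ∀ g : H ≃ₐ[H'] H, actLin p (g : H →+* H) (c ⊗ₜ[ℤ] u : UM p H) =
        c ⊗ₜ[ℤ] unitHom (g : H →+* H) u := fun g => act_tmul _ _ _
    rw [Finset.sum_congr rfl fun g _ => h1 g, ← TensorProduct.tmul_sum]
    have h2 : Pool.Agent.Helper864WL.act p (algebraMap H' H) (c ⊗ₜ[ℤ] Additive.ofMul N) =
        c ⊗ₜ[ℤ] Pool.Agent.Helper864WL.uHom (algebraMap H' H) (Additive.ofMul N) := rfl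
    rw [h2]
    congr 1
    apply Additive.toMul.injective
    apply Units.ext
    apply RingOfIntegers.ext
    have h3 : ((((Pool.Agent.Helper864WL.uHom (algebraMap H' H) (Additive.ofMul N)).toMul :
        (𝓞 H)ˣ) : 𝓞 H) : H) = algebraMap H' H (Algebra.norm H' (((u.toMul : (𝓞 H)ˣ) : 𝓞 H) : H)) := by
      rfl
    rw [h3, Algebra.norm_eq_prod_automorphisms]
    have h4 : ((((∑ g : H ≃ₐ[H'] H, unitHom (g : H →+* H) u).toMul : (𝓞 H)ˣ) : 𝓞 H) : H) =
        ∏ g : H ≃ₐ[H'] H, ((((unitHom (g : H →+* H) u).toMul : (𝓞 H)ˣ) : 𝓞 H) : H) := by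
      rw [toMul_sum]
      push_cast
      rfl
    rw [h4]
    rfl

end

theorem s_DSC : S_DSC := by
  intro p _ H' H _ _ _ _ _ _ x hx
  obtain ⟨y, hy⟩ := trace_below (H' := H') x
  rw [Finset.sum_congr rfl fun g _ => hx g, Finset.sum_const] at hy
  set N := (Finset.univ : Finset (H ≃ₐ[H'] H)).card with hN
  have hN0 : (N : ℂ_[p]) ≠ 0 := by
    have : 0 < N := Finset.card_pos.2 ⟨1, Finset.mem_univ _⟩
    exact_mod_cast this.ne'
  refine ⟨(N : ℂ_[p])⁻¹ • y, ?_⟩
  rw [map_smul, hy, ← Nat.cast_smul_eq_nsmul ℂ_[p], smul_smul, inv_mul_cancel₀ hN0]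
  exact one_smul ℂ_[p] x

end Pool.Agent.L7h97.PX
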