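import Pool.Agent.L7h1.PX.Stm
import Pool.Agent.W332.SL6.LogC

/-!
# Project PX: uniqueness of the logarithm (S_UNQ)
-/

set_option autoImplicit false

namespace Pool.Agent.L7h97.PX

open NumberField Pool.Agent.W289.SL Pool.Agent.L7h1.PX Module
open Pool.Agent.W332.SL6 (NearU nearU_unit log_unique)

theorem s_UNQ : S_UNQ := by
  intro p _ H _ _ L L' hL hL' σ u
  exact log_unique hL hL' (nearU_unit σ u)

end Pool.Agent.L7h97.PX
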